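import Pool.Agent.Run7.h308.Arov

set_option autoImplicit false

namespace Pool.Agent.Results.MP_00ee12_an.LeftRegularEta

open Run7.h308

/-- The answer to Q1: a Schur function is `η_W` for some left regular `j`-inner function `W` if and
only if it has a pseudocontinuation and `log det (I - f f*)` is integrable on the circle. -/
theorem result (p q : ℕ) (f : ℂ → Matrix (Fin p) (Fin q) ℂ) (hf : Schur f) :
    (∃ W, LeftRegular W ∧ IsEta W f) ↔ (HasPseudocontinuation f ∧ LogDetIntegrable f) :=
  eta_lr_iff hf

end Pool.Agent.Results.MP_00ee12_an.LeftRegularEta
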